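import Pool.Agent.J6H89.Dyn.Two

/-!
# Dynatomic polynomials modulo primes

`dynatomic n` in `ℤ[z][x]` is the `n`-th dynatomic polynomial of `x ^ 2 + z`: the quotient
(shown here to be exact) of the product `dynNum n` of the polynomials `f_z^d(x) - x` over the
divisors `d` of `n` with `μ (n / d) = 1` by the product `dynDen n` of those with
`μ (n / d) = -1`, where `it ℤ d` is the `d`-th iterate of `x ^ 2 + z`.

It is irreducible modulo every odd prime `p > 2 ^ n - 7`, over any field of characteristic `p`;
in characteristic two it is irreducible over an algebraically closed field exactly for `n ≤ 2`.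
-/

namespace Pool.Agent.Results.MP_d59dab_nt.LargePrimes

open Polynomial Pool.Agent.J6H89.Dyn

theorem result (n : ℕ) (hn : 1 ≤ n) :
    dynDen n * dynatomic n = dynNum n ∧
    (∀ p : ℕ, p.Prime → p ≠ 2 → 2 ^ n < p + 7 →
      ∀ (K : Type) [Field K] [CharP K p],
        Irreducible ((dynatomic n).map (mapRingHom (Int.castRingHom K)))) ∧
    (∀ (K : Type) [Field K] [IsAlgClosed K] [CharP K 2],
      Irreducible ((dynatomic n).map (mapRingHom (Int.castRingHom K))) ↔ n ≤ 2) := by
  refine ⟨dynDen_mul_dynatomic n hn, ?_, ?_⟩
  · intro p hp hp2 hpn K _ _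
    have h2 : (2 : K) ≠ 0 := by
      intro h
      have h3 : ((2 : ℕ) : K) = 0 := by exact_mod_cast h
      rw [CharP.cast_eq_zero_iff K p] at h3
      exact hp2 ((Nat.prime_dvd_prime_iff_eq hp Nat.prime_two).1 h3)
    refine irreducible_dynatomic h2 n hn (fun m hm hm' h => ?_)
    rw [CharP.cast_eq_zero_iff K p] at h
    have := Nat.le_of_dvd hm h
    omega
  · intro K _ _ _
    constructor
    · intro h
      by_contra hn2
      exact reducible_two n (by omega) h
    · intro hn2
      exact irreducible_small n hn hn2

end Pool.Agent.Results.MP_d59dab_nt.LargePrimes
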